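import Pool.Agent.H16.TO.Targets

/-!
# The complement of the spectrum of a one-order system is a spectrum
-/

set_option autoImplicit false

namespace Pool.Agent.H87.TW

open Pool.Agent.H69.Sp Pool.Agent.H69.Mt Pool.Agent.H16.TO

/-! ### tables -/

section tables

variable {α : Type} {s : ℕ}

/-- the table of a function on a finite type -/
def tab (e : α ≃ Fin s) (g : α → ℕ) (i : ℕ) : ℕ := if h : i < s then g (e.symm ⟨i, h⟩) else 0

theorem tab_apply (e : α ≃ Fin s) (g : α → ℕ) (a : α) : tab e g (e a).val = g a := by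
  rw [tab, dif_pos (e a).isLt]
  simp

/-- the list of the values -/
def lst (e : α ≃ Fin s) (g : α → ℕ) : List ℕ := (List.range s).map (tab e g)

theorem lst_inj (e : α ≃ Fin s) {g g' : α → ℕ} (h : lst e g = lst e g') : g = g' := by
  funext a
  rw [← tab_apply e g a, ← tab_apply e g' a]
  have h1 := (List.map_inj_left (l := List.range s)).1 h
  exact h1 _ (List.mem_range.2 (e a).isLt)

theorem lst_eq (e : α ≃ Fin s) (u : ℕ → ℕ) (r : ℕ) :
    (List.range s).map (fun i => u (r + i)) = lst e (fun a => u (r + (e a).val)) := by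
  refine List.map_congr_left fun i hi => ?_
  rw [List.mem_range] at hi
  rw [tab, dif_pos hi]
  simp

theorem tab_lt (e : α ≃ Fin s) {g : α → ℕ} {N : ℕ} (hN : 0 < N) (h : ∀ a, g a < N) (i : ℕ) :
    tab e g i < N := by
  rw [tab]
  split_ifs with hi
  · exact h _
  · exact hN

end tables

/-! ### assignments -/

section assign

variable {α β : Type} {s M : ℕ}

/-- the assignment with the values `a`, `b`, `c`, `c'`, `m` -/
def asg (e : α ≃ Fin s) (e' : β ≃ Fin M) (a b : ℕ) (c c' : α → ℕ) (m : β → ℕ) (x : ℕ) : ℕ :=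
  if x = 0 then a else if x = 1 then b else if x < 2 + s then tab e c (x - 2)
  else if x < 2 + 2 * s then tab e c' (x - 2 - s) else tab e' m (x - 2 - 2 * s)

variable (e : α ≃ Fin s) (e' : β ≃ Fin M) {a b : ℕ} {c c' : α → ℕ} {m : β → ℕ}

theorem asg_zero : asg e e' a b c c' m 0 = a := by rw [asg, if_pos rfl]

theorem asg_one : asg e e' a b c c' m 1 = b := by rw [asg, if_neg (by omega), if_pos rfl]

theorem asg_c (x : α) : asg e e' a b c c' m (2 + (e x).val) = c x := by
  have h := (e x).isLt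
  rw [asg, if_neg (by omega), if_neg (by omega), if_pos (by omega)]
  rw [show 2 + (e x).val - 2 = (e x).val by omega, tab_apply]

theorem asg_c' (x : α) : asg e e' a b c c' m (2 + s + (e x).val) = c' x := by
  have h := (e x).isLt
  rw [asg, if_neg (by omega), if_neg (by omega), if_neg (by omega), if_pos (by omega)]
  rw [show 2 + s + (e x).val - 2 - s = (e x).val by omega, tab_apply]

theorem asg_m (x : β) : asg e e' a b c c' m (2 + 2 * s + (e' x).val) = m x := by
  have h := (e' x).isLt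
  rw [asg, if_neg (by omega), if_neg (by omega), if_neg (by omega), if_neg (by omega)]
  rw [show 2 + 2 * s + (e' x).val - 2 - 2 * s = (e' x).val by omega, tab_apply]

theorem asg_lt {N : ℕ} (ha : a < N) (hb : b < N) (hc : ∀ x, c x < N) (hc' : ∀ x, c' x < N)
    (hm : ∀ x, m x < N) (x : ℕ) : asg e e' a b c c' m x < N := by
  rw [asg]
  have hN : 0 < N := by omega
  split_ifs
  · exact ha
  · exact hb
  · exact tab_lt e hN hc _
  · exact tab_lt e hN hc' _
  · exact tab_lt e' hN hm _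

end assign

/-! ### the certificates -/

section cert

variable {Λ Θ : Type} [Fintype Λ] [Fintype Θ] [DecidableEq Λ] [DecidableEq Θ] {K s M : ℕ}

/-- the conditions on a set of configurations, for one assignment -/
def Body (Ok : Λ → (Λ × Θ → Fin (K + 1)) → (Λ × Θ → Fin (K + 1)) → Prop)
    (e : St Λ Θ K ≃ Fin s) (e' : St Λ Θ K × Θ ≃ Fin M) : Pd := fun N E u =>
  (u 0 = 0 → (∀ i : Fin s, u (2 + i.val) = 0) →
    E 0 ((0 :: (List.range s).map (2 + ·)).map u)) ∧
  (E 0 ((0 :: (List.range s).map (2 + ·)).map u) → u 1 = u 0 + 1 →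
    ∀ b : Λ, Step (fun σ => u (2 + (e σ).val)) b (fun p => u (2 + 2 * s + (e' p).val))
      (fun σ => u (2 + s + (e σ).val)) →
    E 0 ((1 :: (List.range s).map (2 + s + ·)).map u)) ∧
  (E 0 ((0 :: (List.range s).map (2 + ·)).map u) → (∀ y, y < N → y ≤ u 0) →
    ∀ b : Λ, ¬ ((∀ σ, ∑ θ, u (2 + 2 * s + (e' (σ, θ)).val) = u (2 + (e σ).val)) ∧
      (∀ p : St Λ Θ K × Θ, u (2 + 2 * s + (e' p).val) ≠ 0 → OkSt Ok (upd p.1 b p.2)) ∧
      OkSt Ok (newSt b fun p => u (2 + 2 * s + (e' p).val))))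

theorem fd_body (hFI : T_FI) (hFT : T_FT)
    (Ok : Λ → (Λ × Θ → Fin (K + 1)) → (Λ × Θ → Fin (K + 1)) → Prop)
    (e : St Λ Θ K ≃ Fin s) (e' : St Λ Θ K × Θ ≃ Fin M) : FD (Body Ok e e') := by
  have p0 : FD (fun _ E v => E 0 ((0 :: (List.range s).map (2 + ·)).map v)) := FD.par 0 _
  have p1 : FD (fun _ E v => E 0 ((1 :: (List.range s).map (2 + s + ·)).map v)) := FD.par 0 _
  have z : FD (fun _ _ v => ∀ i : Fin s, v (2 + i.val) = 0) :=
    (hFI (Fin s) (fun i _ _ v => v (2 + i.val) = 0) fun i => FD.num 0 _).1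
  have sc : FD (fun _ _ v => v 1 = v 0 + 1) := FD.succ 0 1
  have mx : FD (fun N _ v => ∀ y, y < N → y ≤ v 0) := by
    refine (FD.all 1 (FD.le 1 0)).congr fun N E v _ => ?_
    refine forall₂_congr fun a _ => ?_
    rw [Function.update_self, Function.update_of_ne (by omega)]
  have st : FD (fun _ _ v => ∀ b : Λ, ¬ Step (fun σ => v (2 + (e σ).val)) b
      (fun p => v (2 + 2 * s + (e' p).val)) (fun σ => v (2 + s + (e σ).val))) :=
    (hFI Λ (fun b _ _ v => ¬ Step (fun σ => v (2 + (e σ).val)) b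
      (fun p => v (2 + 2 * s + (e' p).val)) (fun σ => v (2 + s + (e σ).val)))
      fun b => (hFT Λ Θ K b (fun σ => 2 + (e σ).val) (fun σ => 2 + s + (e σ).val)
        (fun p => 2 + 2 * s + (e' p).val) (fun _ => True)).1.not).1
  have fin : FD (fun _ _ v => ∀ b : Λ,
      ¬ ((∀ σ, ∑ θ, v (2 + 2 * s + (e' (σ, θ)).val) = v (2 + (e σ).val)) ∧
      (∀ p : St Λ Θ K × Θ, v (2 + 2 * s + (e' p).val) ≠ 0 → OkSt Ok (upd p.1 b p.2)) ∧
      OkSt Ok (newSt b fun p => v (2 + 2 * s + (e' p).val)))) :=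
    (hFI Λ (fun b _ _ v =>
      ¬ ((∀ σ, ∑ θ, v (2 + 2 * s + (e' (σ, θ)).val) = v (2 + (e σ).val)) ∧
      (∀ p : St Λ Θ K × Θ, v (2 + 2 * s + (e' p).val) ≠ 0 → OkSt Ok (upd p.1 b p.2)) ∧
      OkSt Ok (newSt b fun p => v (2 + 2 * s + (e' p).val))))
      fun b => (hFT Λ Θ K b (fun σ => 2 + (e σ).val) (fun σ => 2 + s + (e σ).val)
        (fun p => 2 + 2 * s + (e' p).val) (OkSt Ok)).2.not).1
  refine (((FD.num 0 0).imp (z.imp p0)).and ((p0.imp (sc.imp (st.or p1))).and
    (p0.imp (mx.imp fin)))).congr fun N E v _ => ?_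
  unfold Body
  refine and_congr Iff.rfl (and_congr (forall_congr' fun _ => forall_congr' fun _ => ?_) Iff.rfl)
  constructor
  · rintro (h | h) b hb
    · exact absurd hb (h b)
    · exact h
  · intro h
    by_cases hb : ∃ b : Λ, Step (fun σ => v (2 + (e σ).val)) b
      (fun p => v (2 + 2 * s + (e' p).val)) (fun σ => v (2 + s + (e σ).val))
    · obtain ⟨b, hb⟩ := hb
      exact Or.inr (h b hb)
    · exact Or.inl fun b hb' => hb ⟨b, hb'⟩

omit [Fintype Λ] [Fintype Θ] [DecidableEq Λ] [DecidableEq Θ] in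
/-- the list of the first configuration -/
theorem map0 (e : St Λ Θ K ≃ Fin s) (u : ℕ → ℕ) :
    (0 :: (List.range s).map (2 + ·)).map u = u 0 :: lst e (fun σ => u (2 + (e σ).val)) := by
  rw [List.map_cons, List.map_map]
  exact congrArg _ (lst_eq e u 2)

omit [Fintype Λ] [Fintype Θ] [DecidableEq Λ] [DecidableEq Θ] in
/-- the list of the second configuration -/
theorem map1 (e : St Λ Θ K ≃ Fin s) (u : ℕ → ℕ) :
    (1 :: (List.range s).map (2 + s + ·)).map u =
      u 1 :: lst e (fun σ => u (2 + s + (e σ).val)) := by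
  rw [List.map_cons, List.map_map]
  exact congrArg _ (lst_eq e u (2 + s))

/-- bounds for reachable configurations -/
theorem reach_le [Nonempty Λ] [Nonempty Θ] (hRC : T_RC) {t : ℕ} {c : St Λ Θ K → ℕ}
    (h : Reach t c) (σ : St Λ Θ K) : c σ ≤ t := by
  obtain ⟨lam, th, rfl⟩ := (hRC Λ Θ K t c).1 h
  refine (Finset.card_filter_le _ _).trans ?_
  rw [Finset.card_range]

omit [Fintype Λ] [DecidableEq Λ] [DecidableEq Θ] in
theorem m_le {c : St Λ Θ K → ℕ} {m : St Λ Θ K × Θ → ℕ} (h : ∀ σ, ∑ θ, m (σ, θ) = c σ)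
    (p : St Λ Θ K × Θ) : m p ≤ c p.1 := by
  rw [← h p.1]
  exact Finset.single_le_sum (f := fun θ => m (p.1, θ)) (fun _ _ => Nat.zero_le _)
    (Finset.mem_univ p.2)

/-- a certificate exists iff there is no model -/
theorem cert_iff [Nonempty Λ] [Nonempty Θ] (hRC : T_RC) (hRO : T_RO)
    (Ok : Λ → (Λ × Θ → Fin (K + 1)) → (Λ × Θ → Fin (K + 1)) → Prop)
    (e : St Λ Θ K ≃ Fin s) (e' : St Λ Θ K × Θ ≃ Fin M) (n : ℕ) :
    (∃ E : ℕ → List ℕ → Prop, ∀ f : ℕ → ℕ, (∀ i, f i < n + 1) →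
      Body Ok e e' (n + 1) E (updN (fun _ => 0) 0 (2 + 2 * s + M) f)) ↔
      ¬ OneSys K Ok (n + 1) := by
  -- the value of the restricted assignment
  have hu : ∀ (f : ℕ → ℕ) (x : ℕ), x < 2 + 2 * s + M →
      updN (fun _ => 0) 0 (2 + 2 * s + M) f x = f x := by
    intro f x hx
    unfold updN
    rw [if_pos (by omega), Nat.sub_zero]
  have hc : ∀ (f : ℕ → ℕ) (σ : St Λ Θ K),
      updN (fun _ => 0) 0 (2 + 2 * s + M) f (2 + (e σ).val) = f (2 + (e σ).val) := fun f σ =>
    hu f _ (by have := (e σ).isLt; omega)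
  have hc' : ∀ (f : ℕ → ℕ) (σ : St Λ Θ K),
      updN (fun _ => 0) 0 (2 + 2 * s + M) f (2 + s + (e σ).val) = f (2 + s + (e σ).val) :=
    fun f σ => hu f _ (by have := (e σ).isLt; omega)
  have hm : ∀ (f : ℕ → ℕ) (p : St Λ Θ K × Θ),
      updN (fun _ => 0) 0 (2 + 2 * s + M) f (2 + 2 * s + (e' p).val) =
        f (2 + 2 * s + (e' p).val) := fun f p => hu f _ (by have := (e' p).isLt; omega)
  constructor
  · rintro ⟨E, hE⟩ hOne
    have key : ∀ t ≤ n, ∀ c : St Λ Θ K → ℕ, Reach t c → E 0 (t :: lst e c) := by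
      intro t
      induction t with
      | zero =>
        intro _ c h0
        have h0' : c = 0 := h0
        obtain ⟨f, hf⟩ : ∃ f, f = asg e e' 0 0 c c (fun _ => 0) := ⟨_, rfl⟩
        have hfl : ∀ i, f i < n + 1 := by
          rw [hf]
          exact asg_lt e e' (by omega) (by omega) (fun x => by rw [h0']; exact Nat.succ_pos n)
            (fun x => by rw [h0']; exact Nat.succ_pos n) (fun _ => Nat.succ_pos n)
        have h1 := (hE f hfl).1
        rw [map0 e, hu f 0 (by omega)] at h1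
        simp only [hc] at h1
        rw [hf] at h1
        simp only [asg_zero, asg_c] at h1
        refine h1 trivial fun i => ?_
        have h2 := hc f (e.symm i)
        rw [Equiv.apply_symm_apply] at h2
        rw [← hf, h2]
        have h3 := asg_c e e' (a := 0) (b := 0) (c := c) (c' := c) (m := fun _ => 0) (e.symm i)
        rw [Equiv.apply_symm_apply] at h3
        rw [hf, h3, h0']
        rfl
      | succ t ih =>
        intro ht c' h0
        obtain ⟨c, b, m, h1, h2⟩ := h0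
        have hr : Reach (t + 1) c' := ⟨c, b, m, h1, h2⟩
        have hcl : ∀ σ, c σ < n + 1 := fun σ => by
          have := reach_le hRC h1 σ
          omega
        have hcl' : ∀ σ, c' σ < n + 1 := fun σ => by
          have := reach_le hRC hr σ
          omega
        have hml : ∀ p, m p < n + 1 := fun p => (m_le h2.1 p).trans_lt (hcl p.1)
        obtain ⟨f, hf⟩ : ∃ f, f = asg e e' t (t + 1) c c' m := ⟨_, rfl⟩
        have hfl : ∀ i, f i < n + 1 := by
          rw [hf]
          exact asg_lt e e' (by omega) (by omega) hcl hcl' hml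
        have h3 := (hE f hfl).2.1
        rw [map0 e, map1 e, hu f 0 (by omega), hu f 1 (by omega)] at h3
        simp only [hc, hc', hm] at h3
        rw [hf] at h3
        simp only [asg_zero, asg_one, asg_c, asg_c', asg_m] at h3
        exact h3 (ih (by omega) c h1) trivial b h2
    obtain ⟨c, b, m, h1, h2, h3, h4⟩ := (hRO Λ Θ K Ok n).1 hOne
    have hcl : ∀ σ, c σ < n + 1 := fun σ => by
      have := reach_le hRC h1 σ
      omega
    have hml : ∀ p, m p < n + 1 := fun p => (m_le h2 p).trans_lt (hcl p.1)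
    obtain ⟨f, hf⟩ : ∃ f, f = asg e e' n n c c m := ⟨_, rfl⟩
    have hfl : ∀ i, f i < n + 1 := by
      rw [hf]
      exact asg_lt e e' (by omega) (by omega) hcl hcl hml
    have h5 := (hE f hfl).2.2
    rw [map0 e, hu f 0 (by omega)] at h5
    simp only [hc, hm] at h5
    rw [hf] at h5
    simp only [asg_zero, asg_c, asg_m] at h5
    exact h5 (key n le_rfl c h1) (fun y hy => by omega) b ⟨h2, h3, h4⟩
  · intro hOne
    refine ⟨fun _ l => ∃ (t : ℕ) (c : St Λ Θ K → ℕ), l = t :: lst e c ∧ Reach t c, ?_⟩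
    intro f hf
    obtain ⟨u, hu'⟩ : ∃ u, u = updN (fun _ => 0) 0 (2 + 2 * s + M) f := ⟨_, rfl⟩
    rw [← hu']
    have hu0 : u 0 < n + 1 := by
      rw [hu', hu f 0 (by omega)]
      exact hf 0
    unfold Body
    rw [map0 e, map1 e]
    refine ⟨?_, ?_, ?_⟩
    · intro h0 h1
      refine ⟨0, _, by rw [h0], ?_⟩
      change (fun σ => u (2 + (e σ).val)) = 0
      funext σ
      exact h1 (e σ)
    · rintro ⟨t, c, h1, h2⟩ h3 b hb
      rw [List.cons.injEq] at h1
      have hcc := lst_inj e h1.2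
      refine ⟨t + 1, _, by rw [h3, h1.1], ?_⟩
      rw [← hcc] at h2
      exact ⟨_, b, _, h2, hb⟩
    · rintro ⟨t, c, h1, h2⟩ h3 b hb
      rw [List.cons.injEq] at h1
      have hcc := lst_inj e h1.2
      have hn : t = n := by
        have := h3 n (by omega)
        omega
      rw [← hcc, hn] at h2
      exact hOne ((hRO Λ Θ K Ok n).2 ⟨_, b, _, h2, hb.1, hb.2.1, hb.2.2⟩)

end cert

/-- CE: the complement of the spectrum of a one-order system is a spectrum -/
theorem pf_ce : T_FI → T_FA → T_FT → T_RC → T_RO → T_CE := by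
  intro hFI hFA hFT hRC hRO Λ Θ _ _ _ _ _ _ K Ok
  have e := Fintype.equivFin (St Λ Θ K)
  have e' := Fintype.equivFin (St Λ Θ K × Θ)
  have h1 := ed_isSpectrum (hFA _ 0 (2 + 2 * Fintype.card (St Λ Θ K) +
    Fintype.card (St Λ Θ K × Θ)) (fd_body hFI hFT Ok e e')).ed
  have h2 : {n | 0 < n ∧ ¬ OneSys K Ok n} = {N | 0 < N ∧ ∃ E : ℕ → List ℕ → Prop,
      ∀ f : ℕ → ℕ, (∀ i, f i < N) → Body Ok e e' N E (updN (fun _ => 0) 0
        (2 + 2 * Fintype.card (St Λ Θ K) + Fintype.card (St Λ Θ K × Θ)) f)} := by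
    ext N
    refine and_congr_right fun hN => ?_
    obtain ⟨n, rfl⟩ : ∃ n, N = n + 1 := ⟨N - 1, by omega⟩
    exact (cert_iff hRC hRO Ok e e' n).symm
  rw [h2]
  exact h1

end Pool.Agent.H87.TW
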