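import Pool.Agent.H16.TO.Targets

/-!
# The intended tiles of a first-order formula
-/

set_option autoImplicit false

namespace Pool.Agent.H87.TW

open Pool.Agent.H69.Sp Pool.Agent.H69.Mt Pool.Agent.H16.TO

/-- TF: there are finitely many bit patterns -/
theorem pf_tf : T_TF := by
  intro φ
  induction φ with
  | rel i xs => exact inferInstanceAs (Finite Bool)
  | eq x y => exact inferInstanceAs (Finite Bool)
  | neg φ ih => exact ih
  | and φ ψ ih1 ih2 =>
    have := ih1
    have := ih2
    exact inferInstanceAs (Finite (tb φ × tb ψ))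
  | all x φ ih =>
    have := ih
    exact inferInstanceAs (Finite (Bool × Bool × tb φ))

/-- the comparisons of the coordinates of `x` -/
def dx (r : ℕ) (x : ℕ → ℕ) : Dl r := fun i j =>
  if x i = x j then 1 else if x i = x j + 1 then 2 else 0

theorem dl_dx {r : ℕ} {x : ℕ → ℕ} {i j : ℕ} (hi : i < r) (hj : j < r) :
    dl (dx r x) i j = if x i = x j then 1 else if x i = x j + 1 then 2 else 0 := by
  rw [dl, dif_pos ⟨hi, hj⟩]
  rfl

theorem dl_one {r : ℕ} {x : ℕ → ℕ} {i j : ℕ} (hi : i < r) (hj : j < r) :
    dl (dx r x) i j = 1 ↔ x i = x j := by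
  rw [dl_dx hi hj]
  by_cases h1 : x i = x j
  · rw [if_pos h1]; exact iff_of_true rfl h1
  · rw [if_neg h1]
    by_cases h2 : x i = x j + 1
    · rw [if_pos h2]; exact iff_of_false (by decide) h1
    · rw [if_neg h2]; exact iff_of_false (by decide) h1

theorem dl_two {r : ℕ} {x : ℕ → ℕ} {i j : ℕ} (hi : i < r) (hj : j < r) :
    dl (dx r x) i j = 2 ↔ x i = x j + 1 := by
  rw [dl_dx hi hj]
  by_cases h1 : x i = x j
  · rw [if_pos h1]; exact iff_of_false (by decide) (by omega)
  · rw [if_neg h1]
    by_cases h2 : x i = x j + 1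
    · rw [if_pos h2]; exact iff_of_true rfl h2
    · rw [if_neg h2]; exact iff_of_false (by decide) h2

open Classical in
/-- the truth values of the relations at the spare coordinates of `x` -/
noncomputable def rx (B C d : ℕ) (I : ℕ → List ℕ → Prop) (x : ℕ → ℕ) : Rh B C := fun i a =>
  decide (I i ((List.range a).map fun k => x (d + k)))

theorem rh_rx {B C d : ℕ} {I : ℕ → List ℕ → Prop} {x : ℕ → ℕ} {i a : ℕ} (hi : i < B) (ha : a ≤ C) :
    rh (rx B C d I x) i a = @decide (I i ((List.range a).map fun k => x (d + k)))
      (Classical.dec _) := by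
  rw [rh, dif_pos ⟨hi, by omega⟩]
  simp only [rx]

/-- Lemma A: the truth values of the intended tiles -/
theorem tw_tt (d m : ℕ) (I : ℕ → List ℕ → Prop) (x : ℕ → ℕ) (φ : Fm) :
    tw φ (tt d m I φ x) = true ↔ Sat (· < m) I φ (va d x) := by
  induction φ with
  | rel i xs => simp only [tw, tt, Sat, decide_eq_true_eq]
  | eq y y' => simp only [tw, tt, Sat, decide_eq_true_eq]
  | neg φ ih =>
    simp only [tw, tt, Sat]
    rw [← ih]
    simp
  | and φ ψ ih1 ih2 =>
    simp only [tw, tt, Sat]
    rw [← ih1, ← ih2]
    simp
  | all y φ ih => simp only [tw, tt, Sat, decide_eq_true_eq]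

theorem va_of_lt {d : ℕ} {x : ℕ → ℕ} {y : ℕ} (h : y < d) : va d x y = x y := if_pos h

theorem va_update {d : ℕ} {x : ℕ → ℕ} {y a : ℕ} (h : y < d) :
    va d (Function.update x y a) = Function.update (va d x) y a := by
  funext k
  by_cases hk : k = y
  · subst hk
    rw [va_of_lt h, Function.update_self, Function.update_self]
  · rw [Function.update_of_ne hk]
    unfold va
    rw [Function.update_of_ne hk]

theorem va_update_of_ge {d : ℕ} {x : ℕ → ℕ} {y a : ℕ} (h : d ≤ y) :
    va d (Function.update x y a) = va d x := by
  funext k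
  unfold va
  by_cases hk : k < d
  · rw [if_pos hk, if_pos hk, Function.update_of_ne (by omega)]
  · rw [if_neg hk, if_neg hk]

theorem bool_eq {a b : Bool} (h : a = true ↔ b = true) : a = b := by
  cases a <;> cases b <;> simp_all

/-- the entry of a list -/
theorem getD_lt {xs : List ℕ} {d k : ℕ} (h : xs.foldr max 0 + 1 ≤ d) (hk : k < xs.length) :
    xs.getD k 0 < d := by
  have h1 : xs.getD k 0 ∈ xs := by
    rw [List.getD_eq_getElem _ _ hk]
    exact List.getElem_mem hk
  have := le_foldr_max h1
  omega

/-- the two lists agree -/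
theorem lists {xs : List ℕ} {d : ℕ} {x : ℕ → ℕ} (h : xs.foldr max 0 + 1 ≤ d)
    (hx : ∀ k < xs.length, x (d + k) = x (xs.getD k 0)) :
    xs.map (va d x) = (List.range xs.length).map fun k => x (d + k) := by
  refine List.ext_getElem (by simp) fun k h1 h2 => ?_
  rw [List.getElem_map, List.getElem_map, List.getElem_range]
  have hk : k < xs.length := by simpa using h1
  have h3 := getD_lt h hk
  rw [hx k hk]
  rw [List.getD_eq_getElem _ _ hk] at h3 ⊢
  exact va_of_lt h3

/-- the first bit of a quantifier -/
theorem tt_one {d m : ℕ} {I : ℕ → List ℕ → Prop} {x : ℕ → ℕ} {y : ℕ} {φ : Fm} :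
    (show Bool × Bool × tb φ from tt d m I (.all y φ) x).1 = true ↔
      ∀ a < m, Sat (· < m) I φ (Function.update (va d x) y a) := by
  exact @decide_eq_true_iff _ (Classical.dec _)

/-- the second bit of a quantifier -/
theorem tt_two {d m : ℕ} {I : ℕ → List ℕ → Prop} {x : ℕ → ℕ} {y : ℕ} {φ : Fm} :
    (show Bool × Bool × tb φ from tt d m I (.all y φ) x).2.1 = true ↔
      ∀ a ≤ x y, Sat (· < m) I φ (Function.update (va d x) y a) := by
  exact @decide_eq_true_iff _ (Classical.dec _)

/-- Lemma B: the conditions for one cell -/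
theorem lg_tt {d m B C : ℕ} {I : ℕ → List ℕ → Prop} {n x : ℕ → ℕ}
    (hn : ∀ i < d, n i = m) (φ : Fm) (hd : φ.bd ≤ d)
    (hB : rb φ ≤ B) (hC : ab φ ≤ C) :
    LG d (fun i => decide (x i = 0)) (fun i => decide (x i + 1 = n i)) (dx (d + C) x)
      (rx B C d I x) φ (tt d m I φ x) := by
  induction φ with
  | rel i xs =>
    simp only [Fm.bd] at hd
    simp only [rb] at hB
    simp only [ab] at hC
    simp only [LG, tt]
    intro h
    rw [rh_rx (by omega) hC]
    have h1 : ∀ k < xs.length, x (d + k) = x (xs.getD k 0) := fun k hk =>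
      (dl_one (by omega) (by have := getD_lt hd hk; omega)).1 (h k hk)
    rw [lists hd h1]
  | eq y y' =>
    simp only [Fm.bd] at hd
    have hy : y < d := by omega
    have hy' : y' < d := by omega
    change decide (va d x y = va d x y') = true ↔ (y = y' ∨ dl (dx (d + C) x) y y' = 1)
    rw [decide_eq_true_eq, dl_one (by omega) (by omega), va_of_lt hy, va_of_lt hy']
    constructor
    · intro h; exact Or.inr h
    · rintro (h | h)
      · rw [h]
      · exact h
  | neg φ ih =>
    simp only [Fm.bd] at hd
    simp only [rb] at hB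
    simp only [ab] at hC
    exact ih hd hB hC
  | and φ ψ ih1 ih2 =>
    simp only [Fm.bd] at hd
    simp only [rb] at hB
    simp only [ab] at hC
    exact ⟨ih1 (by omega) (by omega) (by omega), ih2 (by omega) (by omega) (by omega)⟩
  | all y φ ih =>
    simp only [Fm.bd] at hd
    simp only [rb] at hB
    simp only [ab] at hC
    have hy : y < d := by omega
    refine ⟨?_, ?_, ih (by omega) (by omega) (by omega)⟩
    · intro h
      have h0 : x y = 0 := by simpa using h
      refine bool_eq (tt_two.trans ?_)
      change _ ↔ tw φ (tt d m I φ x) = true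
      rw [tw_tt]
      have h1 : Function.update (va d x) y 0 = va d x := by
        have h2 : va d x y = 0 := by rw [va_of_lt hy, h0]
        rw [← h2]
        exact Function.update_eq_self y (va d x)
      constructor
      · intro h2
        have h3 := h2 0 (by omega)
        rwa [h1] at h3
      · intro h2 a ha
        have ha0 : a = 0 := by omega
        rw [ha0, h1]
        exact h2
    · intro h
      have h0 : x y + 1 = n y := by simpa using h
      rw [hn y hy] at h0
      refine bool_eq (tt_one.trans (Iff.trans ?_ tt_two.symm))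
      exact ⟨fun h2 a ha => h2 a (by omega), fun h2 a ha => h2 a (by omega)⟩

/-- Lemma C: the conditions for neighbours -/
theorem lh_tt {d m j : ℕ} {I : ℕ → List ℕ → Prop} {x : ℕ → ℕ} (φ : Fm) (hd : φ.bd ≤ d) :
    LH j φ (tt d m I φ x) (tt d m I φ (Function.update x j (x j + 1))) := by
  induction φ with
  | rel i xs =>
    simp only [LH, tt]
    intro h
    have h1 : xs.map (va d x) = xs.map (va d (Function.update x j (x j + 1))) := by
      refine List.map_congr_left fun k hk => ?_
      have hkj : k ≠ j := fun e => h (e ▸ hk)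
      unfold va
      rw [Function.update_of_ne hkj]
    rw [h1]
  | eq y y' => trivial
  | neg φ ih =>
    simp only [Fm.bd] at hd
    exact ih hd
  | and φ ψ ih1 ih2 =>
    simp only [Fm.bd] at hd
    exact ⟨ih1 (by omega), ih2 (by omega)⟩
  | all y φ ih =>
    simp only [Fm.bd] at hd
    have hy : y < d := by omega
    refine ⟨?_, ih (by omega)⟩
    intro hjy
    subst hjy
    have h1 : ∀ a, Function.update (va d (Function.update x j (x j + 1))) j a =
        Function.update (va d x) j a := by
      intro a
      rw [va_update hy, Function.update_idem]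
    refine ⟨bool_eq (tt_one.trans (Iff.trans ?_ tt_one.symm)), bool_eq (tt_two.trans ?_)⟩
    · simp only [h1]
    · rw [Bool.and_eq_true]
      refine Iff.trans ?_ (and_congr tt_two.symm (tw_tt d m I _ φ).symm)
      simp only [h1, Function.update_self]
      rw [va_update hy]
      constructor
      · intro h2
        exact ⟨fun a ha => h2 a (by omega), h2 _ le_rfl⟩
      · rintro ⟨h2, h3⟩ a ha
        rcases Nat.lt_or_ge a (x j + 1) with h4 | h4
        · exact h2 a (by omega)
        · have h5 : a = x j + 1 := by omega
          rw [h5]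
          exact h3

/-- GC: the intended tiling -/
theorem pf_gc : T_GC := by
  intro d B C φ hcl hd hB hC hd0 n hbox hn hI
  obtain ⟨I, hI⟩ := hI
  refine ⟨fun x => (dx (d + C) x, rx B C d I x, tt d (n 0) I φ x), ?_⟩
  intro x hx
  refine ⟨⟨?_, ?_, ?_⟩, ?_⟩
  · intro i hi j hj hij
    refine ⟨?_, ?_, ?_⟩
    · intro h1 h2
      have h3 : x i = 0 := by simpa using h1
      have h4 := (dl_two hi hj).1 h2
      omega
    · intro h1
      have h3 : x j = 0 := by simpa using h1
      rw [dl_one hi hj, decide_eq_true_eq, h3]
    · intro h1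
      have h3 := (dl_one hi hj).1 h1
      rw [decide_eq_true_eq, decide_eq_true_eq, h3, hn i hi, hn j hj]
  · exact lg_tt (fun i hi => hn i (by omega)) φ hd hB hC
  · rw [tw_tt]
    exact (hcl ℕ (· < n 0) I _ _).1 hI
  · intro j hj hjn
    refine ⟨?_, ?_, lh_tt φ hd⟩
    · intro i hi hij
      rw [dl_one hj hi, dl_two hj hi, dl_two hi hj, dl_one hi hj, Function.update_self,
        Function.update_of_ne hij]
      constructor <;> constructor <;> intro h <;> omega
    · intro i hi a ha hja
      rw [rh_rx hi ha, rh_rx hi ha]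
      have h1 : ((List.range a).map fun k => x (d + k)) =
          (List.range a).map fun k => Function.update x j (x j + 1) (d + k) := by
        refine List.map_congr_left fun k hk => ?_
        rw [List.mem_range] at hk
        rw [Function.update_of_ne (by omega)]
      rw [h1]

end Pool.Agent.H87.TW
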