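import Pool.Agent.H16.TO.Targets

/-!
# The tile bits of the subformulas are correct
-/

set_option autoImplicit false

namespace Pool.Agent.H87.TW

open Pool.Agent.H69.Sp Pool.Agent.H69.Mt Pool.Agent.H16.TO

theorem gi_va_of_lt {d : ℕ} {x : ℕ → ℕ} {y : ℕ} (h : y < d) : va d x y = x y := if_pos h

theorem gi_va_update {d : ℕ} {x : ℕ → ℕ} {y a : ℕ} (h : y < d) :
    va d (Function.update x y a) = Function.update (va d x) y a := by
  funext k
  by_cases hk : k = y
  · subst hk
    rw [gi_va_of_lt h, Function.update_self, Function.update_self]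
  · rw [Function.update_of_ne hk]
    unfold va
    rw [Function.update_of_ne hk]

theorem gi_getD_lt {xs : List ℕ} {d k : ℕ} (h : xs.foldr max 0 + 1 ≤ d) (hk : k < xs.length) :
    xs.getD k 0 < d := by
  have h1 : xs.getD k 0 ∈ xs := by
    rw [List.getD_eq_getElem _ _ hk]
    exact List.getElem_mem hk
  have := le_foldr_max h1
  omega

/-- an atomic formula -/
theorem gi_rel (hCN : T_CN) {d m B C : ℕ} {n : ℕ → ℕ} (hn : ∀ i < d + C, n i = m)
    {δ : (ℕ → ℕ) → Dl (d + C)} {ρ : (ℕ → ℕ) → Rh B C} {I : ℕ → List ℕ → Prop}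
    (hδ : ∀ x : ℕ → ℕ, (∀ i, x i < n i) → ∀ i < d + C, ∀ j < d + C, i ≠ j →
      (dl (δ x) i j = 1 ↔ x i = x j))
    (hρ : ∀ x : ℕ → ℕ, (∀ i, x i < n i) → ∀ i < B, ∀ a ≤ C,
      (rh (ρ x) i a = true ↔ I i ((List.range a).map fun k => x (d + k))))
    {i : ℕ} {xs : List ℕ} (hd : xs.foldr max 0 + 1 ≤ d) (hi : i < B) (hC : xs.length ≤ C)
    {t : (ℕ → ℕ) → Bool}
    (h1 : ∀ x : ℕ → ℕ, (∀ i, x i < n i) →
      (∀ k < xs.length, dl (δ x) (d + k) (xs.getD k 0) = 1) → t x = rh (ρ x) i xs.length)
    (h2 : ∀ x : ℕ → ℕ, (∀ i, x i < n i) → ∀ j < d + C, x j + 1 < n j → j ∉ xs →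
      t x = t (Function.update x j (x j + 1)))
    {x : ℕ → ℕ} (hx : ∀ i, x i < n i) : t x = true ↔ I i (xs.map (va d x)) := by
  obtain ⟨x', hx'⟩ : ∃ x' : ℕ → ℕ, ∀ c, x' c =
      if d ≤ c ∧ c < d + xs.length then x (xs.getD (c - d) 0) else x c := ⟨_, fun _ => rfl⟩
  have hlo : ∀ c, c < d → x' c = x c := by
    intro c hc
    rw [hx', if_neg (by omega)]
  have hhi : ∀ c, d + C ≤ c → x' c = x c := by
    intro c hc
    rw [hx', if_neg (by omega)]
  have hmid : ∀ k < xs.length, x' (d + k) = x (xs.getD k 0) := by
    intro k hk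
    rw [hx', if_pos (by omega), Nat.add_sub_cancel_left]
  have hbox : ∀ c, x' c < n c := by
    intro c
    by_cases hc : d ≤ c ∧ c < d + xs.length
    · obtain ⟨k, rfl⟩ : ∃ k, c = d + k := ⟨c - d, by omega⟩
      have hk : k < xs.length := by omega
      rw [hmid k hk, hn (d + k) (by omega), ← hn (xs.getD k 0) (by
        have := gi_getD_lt hd hk
        omega)]
      exact hx _
    · rw [hx', if_neg hc]
      exact hx c
  have e1 : t x = t x' := by
    refine hCN Bool (d + C) n {j | j ∈ xs} t (fun y hy j hj hjx hjn => h2 y hy j hj hjn hjx)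
      x x' hx hbox fun j hj => ?_
    rcases hj with hj | hj
    · have := le_foldr_max (show j ∈ xs from hj)
      exact (hlo j (by omega)).symm
    · exact (hhi j hj).symm
  have e2 : t x' = rh (ρ x') i xs.length := by
    refine h1 x' hbox fun k hk => ?_
    have h3 := gi_getD_lt hd hk
    rw [hδ x' hbox (d + k) (by omega) (xs.getD k 0) (by omega) (by omega), hmid k hk, hlo _ h3]
  have e3 : ((List.range xs.length).map fun k => x' (d + k)) = xs.map (va d x) := by
    refine List.ext_getElem (by simp) fun k h3 h4 => ?_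
    rw [List.getElem_map, List.getElem_map, List.getElem_range]
    have hk : k < xs.length := by simpa using h3
    have h5 := gi_getD_lt hd hk
    rw [hmid k hk]
    rw [List.getD_eq_getElem _ _ hk] at h5 ⊢
    exact (gi_va_of_lt h5).symm
  rw [e1, e2, hρ x' hbox i hi xs.length hC, e3]

/-- a quantifier -/
theorem gi_all {d m : ℕ} {n : ℕ → ℕ} {I : ℕ → List ℕ → Prop} {y : ℕ} {φ : Fm} (hy : y < d)
    (hn : n y = m) {t1 t2 w : (ℕ → ℕ) → Bool}
    (hw : ∀ x : ℕ → ℕ, (∀ i, x i < n i) → (w x = true ↔ Sat (· < m) I φ (va d x)))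
    (h1 : ∀ x : ℕ → ℕ, (∀ i, x i < n i) → x y = 0 → t2 x = w x)
    (h2 : ∀ x : ℕ → ℕ, (∀ i, x i < n i) → x y + 1 = n y → t1 x = t2 x)
    (h3 : ∀ x : ℕ → ℕ, (∀ i, x i < n i) → x y + 1 < n y →
      t1 x = t1 (Function.update x y (x y + 1)) ∧
        t2 (Function.update x y (x y + 1)) = (t2 x && w (Function.update x y (x y + 1))))
    {x : ℕ → ℕ} (hx : ∀ i, x i < n i) :
    t1 x = true ↔ ∀ a < m, Sat (· < m) I φ (Function.update (va d x) y a) := by
  have hbox : ∀ a < m, ∀ i, Function.update x y a i < n i := by
    intro a ha i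
    by_cases hi : i = y
    · subst hi
      rw [Function.update_self, hn]
      exact ha
    · rw [Function.update_of_ne hi]
      exact hx i
  have hstep : ∀ a, Function.update (Function.update x y a) y (Function.update x y a y + 1) =
      Function.update x y (a + 1) := by
    intro a
    rw [Function.update_self, Function.update_idem]
  have k1 : ∀ a < m, (t2 (Function.update x y a) = true ↔
      ∀ a' ≤ a, Sat (· < m) I φ (Function.update (va d x) y a')) := by
    intro a
    induction a with
    | zero =>
      intro ha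
      rw [h1 _ (hbox 0 ha) (Function.update_self _ _ _), hw _ (hbox 0 ha), gi_va_update hy]
      constructor
      · intro h a' ha'
        have : a' = 0 := by omega
        rw [this]
        exact h
      · intro h
        exact h 0 le_rfl
    | succ a ih =>
      intro ha
      have h4 := (h3 _ (hbox a (by omega)) (by rw [Function.update_self, hn]; exact ha)).2
      rw [hstep] at h4
      rw [h4, Bool.and_eq_true, ih (by omega), hw _ (hbox (a + 1) ha), gi_va_update hy]
      constructor
      · rintro ⟨h5, h6⟩ a' ha'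
        rcases Nat.lt_or_ge a' (a + 1) with h7 | h7
        · exact h5 a' (by omega)
        · have h8 : a' = a + 1 := by omega
          rw [h8]
          exact h6
      · intro h5
        exact ⟨fun a' ha' => h5 a' (by omega), h5 _ le_rfl⟩
  have k2 : ∀ a < m, t1 (Function.update x y a) = t1 (Function.update x y 0) := by
    intro a
    induction a with
    | zero => intro _; rfl
    | succ a ih =>
      intro ha
      have h4 := (h3 _ (hbox a (by omega)) (by rw [Function.update_self, hn]; exact ha)).1
      rw [hstep] at h4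
      rw [← h4, ih (by omega)]
  have hxm : x y < m := by rw [← hn]; exact hx y
  have hself : Function.update x y (x y) = x := Function.update_eq_self y x
  have k3 : t1 x = t1 (Function.update x y (m - 1)) := by
    rw [k2 (m - 1) (by omega), ← k2 (x y) hxm, hself]
  rw [k3, h2 _ (hbox (m - 1) (by omega)) (by rw [Function.update_self, hn]; omega),
    k1 (m - 1) (by omega)]
  constructor
  · intro h a ha
    exact h a (by omega)
  · intro h a ha
    exact h a (by omega)

/-- GI: the tile bits of the subformulas are correct -/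
theorem pf_gi : T_CN → T_GI := by
  intro hCN d m B C n _ hn δ ρ I hδ hρ φ
  induction φ with
  | rel i xs =>
    intro hd hB hC t h1 h2 x hx
    simp only [Fm.bd] at hd
    simp only [rb] at hB
    simp only [ab] at hC
    exact gi_rel hCN hn hδ hρ hd (by omega) hC (fun x hx => h1 x hx)
      (fun x hx j hj hjn hjx => h2 x hx j hj hjn hjx) hx
  | eq y y' =>
    intro hd hB hC t h1 h2 x hx
    simp only [Fm.bd] at hd
    have hy : y < d := by omega
    have hy' : y' < d := by omega
    have h3 : (t x : Bool) = true ↔ (y = y' ∨ dl (δ x) y y' = 1) := h1 x hx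
    change (t x : Bool) = true ↔ va d x y = va d x y'
    rw [h3, gi_va_of_lt hy, gi_va_of_lt hy']
    by_cases hyy : y = y'
    · subst hyy
      simp
    · rw [hδ x hx y (by omega) y' (by omega) hyy]
      constructor
      · rintro (h | h)
        · exact absurd h hyy
        · exact h
      · intro h
        exact Or.inr h
  | neg φ ih =>
    intro hd hB hC t h1 h2 x hx
    have h3 := ih hd hB hC t (fun x hx => h1 x hx) (fun x hx j hj hjn => h2 x hx j hj hjn) x hx
    change (!(tw φ (t x))) = true ↔ ¬ Sat (· < m) I φ (va d x)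
    rw [← h3]
    simp
  | and φ ψ ih1 ih2 =>
    intro hd hB hC t h1 h2 x hx
    simp only [Fm.bd] at hd
    simp only [rb] at hB
    simp only [ab] at hC
    have h3 := ih1 (by omega) (by omega) (by omega) (fun x => (show tb φ × tb ψ from t x).1)
      (fun x hx => (h1 x hx).1) (fun x hx j hj hjn => (h2 x hx j hj hjn).1) x hx
    have h4 := ih2 (by omega) (by omega) (by omega) (fun x => (show tb φ × tb ψ from t x).2)
      (fun x hx => (h1 x hx).2) (fun x hx j hj hjn => (h2 x hx j hj hjn).2) x hx
    change (tw φ (show tb φ × tb ψ from t x).1 && tw ψ (show tb φ × tb ψ from t x).2) = true ↔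
      (Sat (· < m) I φ (va d x) ∧ Sat (· < m) I ψ (va d x))
    rw [Bool.and_eq_true]
    exact and_congr h3 h4
  | all y φ ih =>
    intro hd hB hC t h1 h2 x hx
    simp only [Fm.bd] at hd
    simp only [rb] at hB
    simp only [ab] at hC
    have hy : y < d := by omega
    have hw := ih (by omega) (by omega) (by omega)
      (fun x => (show Bool × Bool × tb φ from t x).2.2)
      (fun x hx => (h1 x hx).2.2) (fun x hx j hj hjn => (h2 x hx j hj hjn).2)
    refine gi_all (t1 := fun x => (show Bool × Bool × tb φ from t x).1)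
      (t2 := fun x => (show Bool × Bool × tb φ from t x).2.1)
      (w := fun x => tw φ (show Bool × Bool × tb φ from t x).2.2) hy (hn y (by omega)) hw
      (fun x hx h0 => (h1 x hx).1 (by simpa using h0))
      (fun x hx h0 => (h1 x hx).2.1 (by simpa using h0))
      (fun x hx h0 => (h2 x hx y (by omega) h0).1 rfl) hx

end Pool.Agent.H87.TW
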